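import Pool.Agent.Helper66.EAM.Defs

set_option autoImplicit false

/-! Definitions: ground states on the discrete torus. -/

namespace Pool.H66.EAM

/-- `σ` is a `±1` configuration which is periodic with period `2M+1` in both directions, i.e. a spin
configuration on the discrete torus `(ℤ/(2M+1))²`. -/
def IsPeriodic (M : ℕ) (σ : V → ℝ) : Prop :=
  (∀ x, σ x = 1 ∨ σ x = -1) ∧ ∀ x v : V, σ (x + (2 * (M : ℤ) + 1) • v) = σ x

/-- `σ` is a ground state on the torus of side `2M+1` (periodic boundary conditions) for the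
couplings `J e` of the edges `e = (x, i)` with `x ∈ [-M, M]²`: it minimises the energy
`-∑ J e σ_x σ_{x + e_i}` among all spin configurations on the torus. -/
def IsTorusGround (M : ℕ) (J : E → ℝ) (σ : V → ℝ) : Prop :=
  IsPeriodic M σ ∧ ∀ ρ : V → ℝ, IsPeriodic M ρ →
    ∑ e ∈ box M ×ˢ (Finset.univ : Finset (Fin 2)), J e * bond ρ e
      ≤ ∑ e ∈ box M ×ˢ (Finset.univ : Finset (Fin 2)), J e * bond σ e

end Pool.H66.EAM
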