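import Pool.Agent.Helper66.EAM.StatDefs
import Pool.Agent.Helper66.EAM.CovDefs
import Pool.Agent.Helper66.EAM.DisDefs
import Pool.Agent.Helper66.EAP.Defs

set_option autoImplicit false

/-! Definition: uniqueness of the metastate. -/

namespace Pool.H66.EAM

open MeasureTheory Filter Topology

/-- Uniqueness of the zero-temperature metastate: there is a covariant ground state `α` such that
* every translation invariant law of a pair (couplings, ground state) is carried by `±α`;
* for every bond `e`, the probability that some ground state on the torus of side `2M+1` differs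
  from `α` at `e` tends to zero as `M → ∞` (no subsequence);
* all ground states, even in finite volume with arbitrary boundary conditions, agree with `α` up to
  a set of bonds of density zero, uniformly. -/
def UniqueMetastate (μ : Measure ℝ) [IsProbabilityMeasure μ] : Prop :=
  ∃ α : (E → ℝ) → V → ℝ, Covariant μ id α ∧
    (∀ Q : Measure ((E → ℝ) × (V → ℝ)), StationaryLaw μ Q →
      ∀ᵐ p ∂Q, p.2 = α p.1 ∨ p.2 = -α p.1) ∧
    (∀ e : E, Tendsto (fun M : ℕ => (Measure.infinitePi fun _ : E => μ)
      {J | ∃ σ, IsTorusGround M J σ ∧ bond σ e ≠ bond (α J) e}) atTop (𝓝 0)) ∧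
    (∀ᵐ J ∂(Measure.infinitePi fun _ : E => μ), ∀ ε > 0, ∃ M₀ : ℕ, ∀ M ≥ M₀, ∀ σ : V → ℝ,
      IsGroundIn (box (2 * M)) J σ → ∀ i : Fin 2,
        (disagree i M σ (α J) : ℝ) ≤ ε * ((box M).card : ℝ))

end Pool.H66.EAM
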