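import Pool.Agent.Helper66.EAP.Defs
import Pool.Agent.Helper66.EAM.Res3

set_option autoImplicit false

/-! Reduction modulo `2M+1`, cyclic shifts. -/

namespace Pool.H66.EAM

open MeasureTheory Set ProbabilityTheory Filter Topology
open scoped ENNReal

/-- The representative modulo `2M+1` in the box. -/
def red (M : ℕ) (x : V) : V := fun j => Int.bmod (x j) (2 * M + 1)

lemma red_mem (M : ℕ) (x : V) : red M x ∈ box M := by
  rw [mem_box]
  intro i
  unfold red
  have h1 := Int.le_bmod (x := x i) (m := 2 * M + 1) (by omega)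
  have h2 := Int.bmod_lt (x := x i) (m := 2 * M + 1) (by omega)
  push_cast at h1 h2
  constructor <;> omega

lemma red_of_mem {M : ℕ} {x : V} (h : x ∈ box M) : red M x = x := by
  rw [mem_box] at h
  funext i
  have := h i
  unfold red
  apply Int.bmod_eq_of_le
  · push_cast; omega
  · push_cast; omega

lemma red_red_add (M : ℕ) (x v : V) : red M (red M x + v) = red M (x + v) := by
  funext i
  unfold red
  simp only [Pi.add_apply]
  exact Int.bmod_add_bmod

lemma red_add (M : ℕ) (x v : V) : red M (x + (2 * (M : ℤ) + 1) • v) = red M x := by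
  funext i
  unfold red
  simp only [Pi.add_apply, Pi.smul_apply, smul_eq_mul]
  have := Int.add_mul_bmod_self_left (x i) (2 * M + 1) (v i)
  push_cast at this
  exact this

lemma exists_red (M : ℕ) (x : V) : ∃ v : V, x = red M x + (2 * (M : ℤ) + 1) • v := by
  refine ⟨fun i => Int.bdiv (x i) (2 * M + 1), ?_⟩
  funext i
  unfold red
  simp only [Pi.add_apply, Pi.smul_apply, smul_eq_mul]
  have := Int.bmod_add_bdiv (x i) (2 * M + 1)
  push_cast at this
  exact this.symm

lemma IsPeriodic.red {M : ℕ} {σ : V → ℝ} (h : IsPeriodic M σ) (x : V) : σ (red M x) = σ x := by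
  obtain ⟨v, hv⟩ := exists_red M x
  conv_rhs => rw [hv]
  exact (h.2 _ _).symm

lemma IsPeriodic.spin {M : ℕ} {σ : V → ℝ} (h : IsPeriodic M σ) : IsSpin σ := h.1

lemma per_red {M : ℕ} {σ : V → ℝ} (h : IsSpin σ) : IsPeriodic M (fun x => σ (red M x)) := by
  refine ⟨fun x => h _, fun x v => ?_⟩
  show σ (Pool.H66.EAM.red M (x + (2 * (M : ℤ) + 1) • v)) = σ (Pool.H66.EAM.red M x)
  rw [red_add]

lemma IsPeriodic.shS {M : ℕ} {σ : V → ℝ} (h : IsPeriodic M σ) (v : V) : IsPeriodic M (shS v σ) := by
  refine ⟨fun x => h.1 _, fun x w => ?_⟩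
  show σ (x + (2 * (M : ℤ) + 1) • w + v) = σ (x + v)
  rw [show x + (2 * (M : ℤ) + 1) • w + v = (x + v) + (2 * (M : ℤ) + 1) • w by abel]
  exact h.2 _ _

lemma IsPeriodic.bond {M : ℕ} {σ : V → ℝ} (h : IsPeriodic M σ) (x : V) (i : Fin 2) :
    bond σ (Pool.H66.EAM.red M x, i) = bond σ (x, i) := by
  unfold Pool.H66.EAM.bond
  simp only
  rw [h.red, ← h.red (Pool.H66.EAM.red M x + _), red_red_add, h.red]

/-- The cyclic shift of the edges of the torus. -/
noncomputable def cyc (M : ℕ) (v : V) (e : E) : E := by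
  classical exact if e.1 ∈ box M then (red M (e.1 + v), e.2) else e

lemma cyc_mem {M : ℕ} {v : V} {e : E} (h : e.1 ∈ box M) : cyc M v e = (red M (e.1 + v), e.2) := by
  unfold cyc; rw [if_pos h]

lemma cyc_injective (M : ℕ) (v : V) : Function.Injective (cyc M v) := by
  intro e e' h
  unfold cyc at h
  split_ifs at h with h1 h2 h2
  · have h3 := congrArg Prod.fst h
    have h4 := congrArg Prod.snd h
    simp only at h3 h4
    have h5 : red M (red M (e.1 + v) + -v) = red M (red M (e'.1 + v) + -v) := by rw [h3]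
    rw [red_red_add, red_red_add, add_neg_cancel_right, add_neg_cancel_right, red_of_mem h1,
      red_of_mem h2] at h5
    exact Prod.ext h5 h4
  · exfalso
    have h3 := congrArg Prod.fst h
    simp only at h3
    exact h2 (h3 ▸ red_mem _ _)
  · exfalso
    have h3 := congrArg Prod.fst h
    simp only at h3
    exact h1 (h3 ▸ red_mem _ _)
  · exact h

lemma mp_cyc (μ : Measure ℝ) [IsProbabilityMeasure μ] (M : ℕ) (v : V) :
    MeasurePreserving (fun J : E → ℝ => fun e => J (cyc M v e)) (PJ μ) (PJ μ) := by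
  refine ⟨measurable_pi_lambda _ (fun _ => measurable_pi_apply _), ?_⟩
  exact Measure.map_infinitePi_infinitePi_of_inj (P := fun _ : E => μ) (f := cyc M v)
    (cyc_injective M v)

/-- Invariance of the energy. -/
lemma energy_cyc {M : ℕ} {J : E → ℝ} {σ : V → ℝ} (h : IsPeriodic M σ) (v : V) :
    ∑ e ∈ box M ×ˢ (Finset.univ : Finset (Fin 2)), J (cyc M v e) * bond (shS v σ) e
      = ∑ e ∈ box M ×ˢ (Finset.univ : Finset (Fin 2)), J e * bond σ e := by
  classical
  apply Finset.sum_bij (fun e _ => cyc M v e)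
  · intro e he
    rw [Finset.mem_product] at he ⊢
    rw [cyc_mem he.1]
    exact ⟨red_mem _ _, Finset.mem_univ _⟩
  · intro a _ b _ hab
    exact cyc_injective M v hab
  · intro e he
    rw [Finset.mem_product] at he
    refine ⟨(red M (e.1 + -v), e.2), ?_, ?_⟩
    · rw [Finset.mem_product]
      exact ⟨red_mem _ _, Finset.mem_univ _⟩
    · rw [cyc_mem (red_mem _ _)]
      simp only
      rw [red_red_add, neg_add_cancel_right, red_of_mem he.1]
  · intro e he
    rw [Finset.mem_product] at he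
    rw [cyc_mem he.1, bond_shS, h.bond]
    rfl

lemma IsTorusGround.cyc {M : ℕ} {J : E → ℝ} {σ : V → ℝ} (h : IsTorusGround M J σ) (v : V) :
    IsTorusGround M (fun e => J (cyc M v e)) (shS v σ) := by
  refine ⟨h.1.shS v, fun ρ hρ => ?_⟩
  have h1 : ρ = shS v (shS (-v) ρ) := by
    rw [shS_shS, add_neg_cancel]
    funext x
    unfold Pool.H66.EAM.shS
    rw [add_zero]
  rw [energy_cyc h.1 v]
  rw [h1, energy_cyc (hρ.shS (-v)) v]
  exact h.2 _ (hρ.shS (-v))

lemma cyc_cyc {M : ℕ} {v : V} {e : E} : cyc M (-v) (cyc M v e) = e := by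
  by_cases h : e.1 ∈ box M
  · rw [cyc_mem h, cyc_mem (red_mem _ _)]
    simp only
    rw [red_red_add, add_neg_cancel_right, red_of_mem h]
  · have h1 : Pool.H66.EAM.cyc M v e = e := by unfold Pool.H66.EAM.cyc; rw [if_neg h]
    rw [h1]
    unfold Pool.H66.EAM.cyc; rw [if_neg h]

end Pool.H66.EAM
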