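import Pool.Agent.Helper66.EAP.Tor

set_option autoImplicit false

/-! The thermodynamic limit of the torus ground states. -/

namespace Pool.H66.EAM

open MeasureTheory Set ProbabilityTheory Filter Topology
open scoped ENNReal symmDiff

variable {μ : Measure ℝ} [IsProbabilityMeasure μ]

/-- Fraction of the bonds of `box K` at which a torus ground state disagrees with `α`. -/
noncomputable def uu (α : (E → ℝ) → V → ℝ) (i : Fin 2) (M K : ℕ) (J : E → ℝ) : ℝ :=
  (∑ x ∈ box K, (DM M (x, i) (fun J => bond (α J) (x, i))).indicator (1 : (E → ℝ) → ℝ) J)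
    / ((box K).card : ℝ)

lemma uu_nonneg (α : (E → ℝ) → V → ℝ) (i : Fin 2) (M K : ℕ) (J : E → ℝ) : 0 ≤ uu α i M K J := by
  unfold uu
  apply div_nonneg _ (box_pos K).le
  apply Finset.sum_nonneg
  intro x _
  exact indicator_nonneg (fun _ _ => zero_le_one) _

lemma uu_le (α : (E → ℝ) → V → ℝ) (i : Fin 2) (M K : ℕ) (J : E → ℝ) : uu α i M K J ≤ 1 := by
  unfold uu
  rw [div_le_one (box_pos K)]
  calc ∑ x ∈ box K, (DM M (x, i) (fun J => bond (α J) (x, i))).indicator (1 : (E → ℝ) → ℝ) J
      ≤ ∑ x ∈ box K, (1 : ℝ) := by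
        apply Finset.sum_le_sum
        intro x _
        apply indicator_le' (fun _ _ => le_refl _) (fun _ _ => zero_le_one)
    _ = ((box K).card : ℝ) := by simp

lemma uu_meas {α : (E → ℝ) → V → ℝ} (hα : Measurable α) (i : Fin 2) (M K : ℕ) :
    Measurable (uu α i M K) := by
  unfold uu
  apply Measurable.div_const
  apply Finset.measurable_sum
  intro x _
  exact measurable_one.indicator (measurableSet_DM M _ (measurable_bond hα _))

lemma uu_tendsto (hμ : ∀ x : ℝ, μ {x} = 0) {α : (E → ℝ) → V → ℝ} (hα : Covariant μ id α)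
    (i : Fin 2) : ∀ᵐ J ∂(PJ μ), Tendsto (fun M : ℕ => uu α i M ((M - 1) / 2) J) atTop (𝓝 0) := by
  classical
  filter_upwards [density_zero' hμ hα, torus_unique hμ] with J h1 h2
  rw [Metric.tendsto_atTop]
  intro ε hε
  obtain ⟨M0, hM0⟩ := h1 (ε / 2) (by positivity)
  refine ⟨2 * M0 + 2, fun M hM => ?_⟩
  set K : ℕ := (M - 1) / 2 with hK
  have hK1 : M0 ≤ K := by omega
  have hK2 : 2 * K < M := by omega
  rw [Real.dist_eq, sub_zero, abs_of_nonneg (uu_nonneg _ _ _ _ _)]
  suffices h : uu α i M K J ≤ ε / 2 by linarith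
  unfold uu
  rw [div_le_iff₀ (box_pos K)]
  by_cases hex : ∃ σ, IsTorusGround M J σ
  · obtain ⟨σ, hσ⟩ := hex
    have h3 := hM0 K hK1 σ (hσ.groundIn hK2) i
    refine le_trans (le_of_eq ?_) h3
    rw [disagree_eq, Finset.card_filter]
    push_cast
    apply Finset.sum_congr rfl
    intro x _
    by_cases h4 : bond σ (x, i) ≠ bond (α J) (x, i)
    · rw [if_pos h4, indicator_of_mem (show J ∈ DM M (x, i) (fun J => bond (α J) (x, i)) from
        ⟨σ, hσ, h4⟩)]
      rfl
    · rw [if_neg h4, indicator_of_notMem]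
      rintro ⟨τ, hτ, h5⟩
      apply h4
      rw [← h2 M τ σ hτ hσ]
      exact h5
  · have h3 : ∀ x ∈ box K, (DM M (x, i) (fun J => bond (α J) (x, i))).indicator
        (1 : (E → ℝ) → ℝ) J = 0 := by
      intro x _
      apply indicator_of_notMem
      rintro ⟨τ, hτ, -⟩
      exact hex ⟨τ, hτ⟩
    rw [Finset.sum_congr rfl h3]
    simp only [Finset.sum_const_zero]
    have := box_pos K
    positivity

lemma uu_int (hμ : ∀ x : ℝ, μ {x} = 0) {α : (E → ℝ) → V → ℝ} (hα : Covariant μ id α)
    (i : Fin 2) : Tendsto (fun M : ℕ => ∫ J, uu α i M ((M - 1) / 2) J ∂(PJ μ)) atTop (𝓝 0) := by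
  have h := tendsto_integral_of_dominated_convergence (μ := PJ μ)
    (F := fun (M : ℕ) J => uu α i M ((M - 1) / 2) J) (f := fun _ => (0 : ℝ)) (fun _ => (1 : ℝ))
    (fun M => (uu_meas hα.meas i M _).aestronglyMeasurable) (integrable_const _)
    (fun M => ae_of_all _ (fun J => by
      rw [Real.norm_eq_abs, abs_of_nonneg (uu_nonneg _ _ _ _ _)]
      exact uu_le _ _ _ _ _)) (uu_tendsto hμ hα i)
  simpa using h

/-- The periodic ground states converge to the covariant ground state, in probability. -/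
theorem torus_limit (hμ : ∀ x : ℝ, μ {x} = 0) {α : (E → ℝ) → V → ℝ} (hα : Covariant μ id α)
    (e : E) : Tendsto (fun M : ℕ => (PJ μ) {J | ∃ σ, IsTorusGround M J σ ∧ bond σ e ≠ bond (α J) e})
      atTop (𝓝 0) := by
  classical
  obtain ⟨z, i⟩ := e
  rw [← ENNReal.tendsto_toReal_zero_iff (fun M => measure_ne_top _ _)]
  show Tendsto (fun M : ℕ => (PJ μ).real (DM M (z, i) (fun J => bond (α J) (z, i)))) atTop (𝓝 0)
  rw [Metric.tendsto_atTop]
  intro ε hε
  set δ : ℝ := ε / 4 with hδ
  have hδ0 : 0 < δ := by positivity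
  have hbm : Measurable (fun ω => bond (α ω) (0, i)) := measurable_bond hα.meas _
  set C : Set (E → ℝ) := {ω | bond (α ω) (0, i) = 1} with hCdef
  have hC : MeasurableSet C := measurableSet_eq_fun hbm measurable_const
  obtain ⟨S, D, hD, hloc, hCD⟩ := approx (ν := μ) hC hδ0
  set F : (E → ℝ) → ℝ := fun ω => 2 * D.indicator (1 : (E → ℝ) → ℝ) ω - 1 with hF
  have hFm : Measurable F := ((measurable_one.indicator hD).const_mul 2).sub_const 1
  have hFl : Loc S F := by
    intro ω ω' h
    have hiff := hloc ω ω' h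
    simp only [hF]
    by_cases h : ω ∈ D
    · rw [indicator_of_mem h, indicator_of_mem (hiff.1 h)]; rfl
    · rw [indicator_of_notMem h, indicator_of_notMem (fun h' => h (hiff.2 h'))]
  obtain ⟨R, hR⟩ := exists_box (S.image Prod.fst)
  have hSR : ∀ e ∈ S, e.1 ∈ box R := fun e he => hR (Finset.mem_image_of_mem _ he)
  -- the error of the approximation at `x`
  set A : V → Set (E → ℝ) := fun x => {J | F (shJ x J) ≠ bond (α J) (x, i)} with hA
  have hAm : ∀ x, MeasurableSet (A x) := fun x =>
    (measurableSet_eq_fun (hFm.comp (measurable_shJ x)) (measurable_bond hα.meas _)).compl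
  have hB0 : MeasurableSet {J | F J ≠ bond (α J) (0, i)} :=
    (measurableSet_eq_fun hFm hbm).compl
  have hAle0 : (PJ μ).real {J | F J ≠ bond (α J) (0, i)} ≤ δ := by
    refine le_trans ?_ hCD
    apply ENNReal.toReal_mono (measure_ne_top _ _)
    apply measure_mono_ae
    filter_upwards [hα.spin] with ω hω h
    have h' : F ω ≠ bond (α ω) (0, i) := h
    show ω ∈ C ∆ D
    rw [Set.mem_symmDiff]
    by_cases h2 : ω ∈ D
    · right
      refine ⟨h2, fun h3 => h' ?_⟩
      have h4 : bond (α ω) (0, i) = 1 := h3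
      simp only [hF]
      rw [indicator_of_mem h2, h4]; norm_num
    · left
      refine ⟨?_, h2⟩
      by_contra h3
      have h4 : bond (α ω) (0, i) = -1 := (bond_cases hω _).resolve_left h3
      apply h'
      simp only [hF]
      rw [indicator_of_notMem h2, h4]; norm_num
  have hAle : ∀ x, (PJ μ).real (A x) ≤ δ := by
    intro x
    refine le_trans (le_of_eq ?_) hAle0
    unfold Measure.real
    rw [← (mp_shJ μ x).measure_preimage hB0.nullMeasurableSet]
    congr 1
    apply measure_congr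
    filter_upwards [hα.bond_sh0] with J hJ
    apply propext
    show F (shJ x J) ≠ bond (α J) (x, i) ↔ F (shJ x J) ≠ bond (α (shJ x J)) (0, i)
    rw [hJ]
  -- the main estimate
  obtain ⟨M1, hM1⟩ := (Metric.tendsto_atTop.1 (uu_int hμ hα i)) δ hδ0
  obtain ⟨N, hN⟩ := exists_box ({z} : Finset V)
  have hzN : z ∈ box N := hN (Finset.mem_singleton_self z)
  refine ⟨max M1 (2 * (R + N) + 2), fun M hM => ?_⟩
  set K : ℕ := (M - 1) / 2 with hK
  have hM2 : M1 ≤ M := le_trans (le_max_left _ _) hM
  have hM3 : 2 * (R + N) + 2 ≤ M := le_trans (le_max_right _ _) hM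
  have hKR : K + R ≤ M := by omega
  have hNK : N ≤ K := by omega
  have hzK : z ∈ box K := box_mono hNK hzN
  have hu : ∫ J, uu α i M K J ∂(PJ μ) < δ := by
    have := hM1 M hM2
    rw [Real.dist_eq, sub_zero] at this
    exact lt_of_abs_lt this
  -- `DM` with the local function
  have hDm : ∀ x, MeasurableSet (DM M (x, i) (fun J => F (shJ x J))) := fun x =>
    measurableSet_DM M _ (hFm.comp (measurable_shJ x))
  have hDm' : ∀ x, MeasurableSet (DM M (x, i) (fun J => bond (α J) (x, i))) := fun x =>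
    measurableSet_DM M _ (measurable_bond hα.meas _)
  have hshift : ∀ x ∈ box K, (PJ μ).real (DM M (x, i) (fun J => F (shJ x J)))
      = (PJ μ).real (DM M (0, i) F) := by
    intro x hx
    unfold Measure.real
    rw [DM_cyc hKR hFm hFl hSR hx i]
  have hcmp1 : ∀ x, DM M (x, i) (fun J => F (shJ x J)) ⊆
      DM M (x, i) (fun J => bond (α J) (x, i)) ∪ A x := by
    rintro x J ⟨σ, h1, h2⟩
    by_cases h3 : F (shJ x J) = bond (α J) (x, i)
    · left
      refine ⟨σ, h1, ?_⟩
      show bond σ (x, i) ≠ bond (α J) (x, i)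
      rw [← h3]; exact h2
    · right; exact h3
  have hcmp2 : DM M (z, i) (fun J => bond (α J) (z, i)) ⊆
      DM M (z, i) (fun J => F (shJ z J)) ∪ A z := by
    rintro J ⟨σ, h1, h2⟩
    by_cases h3 : F (shJ z J) = bond (α J) (z, i)
    · left
      refine ⟨σ, h1, ?_⟩
      show bond σ (z, i) ≠ F (shJ z J)
      rw [h3]; exact h2
    · right; exact h3
  have hsum : (PJ μ).real (DM M (0, i) F) * ((box K).card : ℝ)
      ≤ (∫ J, uu α i M K J ∂(PJ μ) + δ) * ((box K).card : ℝ) := by
    have e1 : (PJ μ).real (DM M (0, i) F) * ((box K).card : ℝ)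
        = ∑ x ∈ box K, (PJ μ).real (DM M (x, i) (fun J => F (shJ x J))) := by
      rw [Finset.sum_congr rfl hshift, Finset.sum_const, nsmul_eq_mul, mul_comm]
    have e2 : ∑ x ∈ box K, (PJ μ).real (DM M (x, i) (fun J => F (shJ x J)))
        ≤ ∑ x ∈ box K, ((PJ μ).real (DM M (x, i) (fun J => bond (α J) (x, i))) + δ) := by
      apply Finset.sum_le_sum
      intro x _
      calc (PJ μ).real (DM M (x, i) (fun J => F (shJ x J)))
          ≤ (PJ μ).real (DM M (x, i) (fun J => bond (α J) (x, i)) ∪ A x) :=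
            measureReal_mono (hcmp1 x)
        _ ≤ _ := measureReal_union_le _ _
        _ ≤ _ := by linarith [hAle x]
    have e3 : (∫ J, uu α i M K J ∂(PJ μ)) * ((box K).card : ℝ)
        = ∑ x ∈ box K, (PJ μ).real (DM M (x, i) (fun J => bond (α J) (x, i))) := by
      unfold uu
      rw [integral_div, div_mul_cancel₀ _ (box_pos K).ne', integral_finsetSum]
      · apply Finset.sum_congr rfl
        intro x _
        exact integral_indicator_one (hDm' x)
      · intro x _
        exact (integrable_const (1 : ℝ)).indicator (hDm' x)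
    rw [e1, add_mul, e3]
    refine e2.trans (le_of_eq ?_)
    rw [Finset.sum_add_distrib, Finset.sum_const, nsmul_eq_mul, mul_comm δ]
  have h0 : (PJ μ).real (DM M (0, i) F) ≤ ∫ J, uu α i M K J ∂(PJ μ) + δ :=
    le_of_mul_le_mul_right hsum (box_pos K)
  rw [Real.dist_eq, sub_zero, abs_of_nonneg measureReal_nonneg]
  calc (PJ μ).real (DM M (z, i) (fun J => bond (α J) (z, i)))
      ≤ (PJ μ).real (DM M (z, i) (fun J => F (shJ z J)) ∪ A z) := measureReal_mono hcmp2
    _ ≤ _ := measureReal_union_le _ _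
    _ ≤ (PJ μ).real (DM M (0, i) F) + δ := by rw [hshift z hzK]; linarith [hAle z]
    _ < ε := by linarith

end Pool.H66.EAM
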