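import Pool.Agent.Helper66.EAP.Red

set_option autoImplicit false

/-! Torus ground states: local ground state property, uniqueness, measurability. -/

namespace Pool.H66.EAM

open MeasureTheory Set ProbabilityTheory Filter Topology
open scoped ENNReal

/-- The edges of the torus. -/
noncomputable def tE (M : ℕ) : Finset E := box M ×ˢ (Finset.univ : Finset (Fin 2))

lemma mem_tE {M : ℕ} {e : E} : e ∈ tE M ↔ e.1 ∈ box M := by
  unfold tE
  rw [Finset.mem_product]
  simp

lemma IsTorusGround.groundIn {M K : ℕ} (hK : 2 * K < M) {J : E → ℝ} {σ : V → ℝ}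
    (h : IsTorusGround M J σ) : IsGroundIn (box (2 * K)) J σ := by
  classical
  refine ⟨h.1.spin, fun ρ hρ hB => ?_⟩
  -- outside the torus edges nothing changes
  have hout : ∀ e : E, e ∉ tE M → bond ρ e = bond σ e := by
    intro e he
    rw [mem_tE, mem_box] at he
    have h1 : e.1 ∉ box (2 * K) := by
      intro h2
      rw [mem_box] at h2
      apply he
      intro i
      have := h2 i
      push_cast at this
      constructor <;> omega
    have h2 : e.1 + (Pi.single e.2 (1 : ℤ) : Fin 2 → ℤ) ∉ box (2 * K) := by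
      intro h2
      rw [mem_box] at h2
      apply he
      intro i
      have h3 := h2 i
      rw [Pi.add_apply] at h3
      push_cast at h3
      by_cases hi : i = e.2
      · subst hi
        rw [Pi.single_eq_same] at h3
        constructor <;> omega
      · rw [Pi.single_eq_of_ne hi] at h3
        constructor <;> omega
    unfold bond
    rw [hB _ h1, hB _ h2]
  have hin : ∀ e : E, e ∈ tE M → bond (fun x => ρ (red M x)) e = bond ρ e := by
    intro e he
    rw [mem_tE] at he
    unfold bond
    simp only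
    rw [red_of_mem he]
    by_cases ht : e.1 + (Pi.single e.2 (1 : ℤ) : Fin 2 → ℤ) ∈ box M
    · rw [red_of_mem ht]
    · have hno : ∀ x : V, x ∈ box (2 * K) → x ∈ box M := by
        intro x hx
        rw [mem_box] at hx ⊢
        intro i
        have := hx i
        push_cast at this
        constructor <;> omega
      have h1 : e.1 + (Pi.single e.2 (1 : ℤ) : Fin 2 → ℤ) ∉ box (2 * K) := fun h => ht (hno _ h)
      -- the reduced tip is outside of the small box
      have h2 : red M (e.1 + (Pi.single e.2 (1 : ℤ) : Fin 2 → ℤ)) ∉ box (2 * K) := by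
        intro h2
        obtain ⟨v, hv⟩ := exists_red M (e.1 + (Pi.single e.2 (1 : ℤ) : Fin 2 → ℤ))
        rw [mem_box] at h2 he ht
        have h3 := h2 e.2
        have h4 := he e.2
        push_cast at h3
        have h5 := congrFun hv e.2
        rw [Pi.add_apply, Pi.single_eq_same, Pi.add_apply, Pi.smul_apply, smul_eq_mul] at h5
        -- the tip has coordinate `M+1` in the direction `e.2`
        have h6 : e.1 e.2 = M := by
          by_contra hne
          apply ht
          intro i
          rw [Pi.add_apply]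
          by_cases hi : i = e.2
          · subst hi
            rw [Pi.single_eq_same]
            constructor <;> omega
          · rw [Pi.single_eq_of_ne hi]
            have := he i
            constructor <;> omega
        rw [h6] at h5
        have h7 : v e.2 = 0 ∨ v e.2 = 1 ∨ v e.2 < 0 ∨ 2 ≤ v e.2 := by omega
        rcases h7 with h7 | h7 | h7 | h7
        · rw [h7] at h5; omega
        · rw [h7] at h5; omega
        · nlinarith
        · nlinarith
      rw [hB _ h2, hB _ h1, h.1.red]
  have h1 := h.2 (fun x => ρ (red M x)) (per_red hρ)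
  have h2 : ∑ e ∈ tE M, J e * bond (fun x => ρ (red M x)) e = ∑ e ∈ tE M, J e * bond ρ e := by
    apply Finset.sum_congr rfl
    intro e he
    rw [hin e he]
  have h3 : ∑ᶠ e : E, J e *
      (σ e.1 * σ (e.1 + (Pi.single e.2 (1 : ℤ) : Fin 2 → ℤ))
        - ρ e.1 * ρ (e.1 + (Pi.single e.2 (1 : ℤ) : Fin 2 → ℤ)))
      = ∑ e ∈ tE M, J e * (bond σ e - bond ρ e) := by
    apply finsum_eq_sum_of_support_subset
    intro e he
    by_contra hc
    apply he
    have := hout e (by simpa using hc)
    unfold bond at this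
    show J e * (σ e.1 * σ (e.1 + (Pi.single e.2 (1 : ℤ) : Fin 2 → ℤ))
        - ρ e.1 * ρ (e.1 + (Pi.single e.2 (1 : ℤ) : Fin 2 → ℤ))) = 0
    rw [this]
    ring
  rw [h3]
  have h4 : ∑ e ∈ tE M, J e * (bond σ e - bond ρ e)
      = ∑ e ∈ tE M, J e * bond σ e - ∑ e ∈ tE M, J e * bond ρ e := by
    rw [← Finset.sum_sub_distrib]
    apply Finset.sum_congr rfl
    intro e _
    ring
  rw [h4, ← h2]
  have h5 : ∑ e ∈ tE M, J e * bond (fun x => ρ (red M x)) e ≤ ∑ e ∈ tE M, J e * bond σ e := h1
  linarith

/-- A nontrivial linear form of the couplings does not vanish. -/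
lemma generic2 {μ : Measure ℝ} [IsProbabilityMeasure μ] (hμ : ∀ x : ℝ, μ {x} = 0) {T : Finset E}
    {c : E → ℝ} {e0 : E} (he0 : e0 ∈ T) (hc0 : c e0 ≠ 0) :
    ∀ᵐ J ∂(PJ μ), ∑ e ∈ T, J e * c e ≠ 0 := by
  classical
  have hN : MeasurableSet {J : E → ℝ | ∑ e ∈ T, J e * c e = 0} := by
    apply measurableSet_eq_fun _ measurable_const
    apply Finset.measurable_sum
    intro e _
    exact (measurable_pi_apply e).mul_const _
  set N : Set (E → ℝ) := {J | ∑ e ∈ T, J e * c e = 0} with hNdef
  have hz : ∀ ω : E → ℝ, (Measure.pi fun _ : ({e0} : Finset E) => μ)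
      {x | spl {e0} ω x ∈ N} = 0 := by
    intro ω
    set d : ℝ := -(∑ e ∈ T.erase e0, ω e * c e) / c e0 with hd
    have hsub : {x : ({e0} : Finset E) → ℝ | spl {e0} ω x ∈ N}
        ⊆ (fun x : ({e0} : Finset E) → ℝ => x ⟨e0, Finset.mem_singleton_self e0⟩) ⁻¹' {d} := by
      intro x hx
      have hx1 : ∑ e ∈ T, (spl {e0} ω x) e * c e = 0 := hx
      rw [← Finset.add_sum_erase _ _ he0] at hx1
      have h1 : (spl {e0} ω x) e0 = x ⟨e0, Finset.mem_singleton_self e0⟩ := by
        rw [spl_mem (Finset.mem_singleton_self e0)]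
      have h2 : ∑ e ∈ T.erase e0, (spl {e0} ω x) e * c e = ∑ e ∈ T.erase e0, ω e * c e := by
        apply Finset.sum_congr rfl
        intro e he
        have : e ∉ ({e0} : Finset E) := by
          rw [Finset.mem_singleton]; exact Finset.ne_of_mem_erase he
        rw [spl_notMem this]
      rw [h1, h2] at hx1
      show x ⟨e0, _⟩ = d
      rw [hd, eq_div_iff hc0]
      linarith
    refine measure_mono_null hsub ?_
    rw [(measurePreserving_eval (fun _ : ({e0} : Finset E) => μ)
      ⟨e0, Finset.mem_singleton_self e0⟩).measure_preimage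
      (measurableSet_singleton d).nullMeasurableSet]
    exact hμ d
  have h0 : PJ μ N = 0 := by
    rw [← lintegral_indicator_one hN, lintegral_spl μ {e0} _ (measurable_one.indicator hN)]
    have : ∀ ω : E → ℝ, ∫⁻ x, N.indicator (1 : (E → ℝ) → ℝ≥0∞) (spl {e0} ω x)
        ∂(Measure.pi fun _ : ({e0} : Finset E) => μ) = 0 := by
      intro ω
      have hm : Measurable (fun x : ({e0} : Finset E) → ℝ => spl {e0} ω x) :=
        (measurable_spl {e0}).comp (measurable_const.prodMk measurable_id)
      have h3 : (fun x : ({e0} : Finset E) → ℝ => N.indicator (1 : (E → ℝ) → ℝ≥0∞) (spl {e0} ω x))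
          = ({x | spl {e0} ω x ∈ N} : Set (({e0} : Finset E) → ℝ)).indicator 1 := by
        funext x
        by_cases hx : spl {e0} ω x ∈ N
        · rw [indicator_of_mem hx, indicator_of_mem (show x ∈ {x | spl {e0} ω x ∈ N} from hx)]
          rfl
        · rw [indicator_of_notMem hx, indicator_of_notMem
            (show x ∉ {x | spl {e0} ω x ∈ N} from hx)]
      have hm' : MeasurableSet {x : ({e0} : Finset E) → ℝ | spl {e0} ω x ∈ N} := hm hN
      rw [h3, lintegral_indicator_one hm', hz ω]
    simp_rw [this]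
    simp
  rw [ae_iff]
  simpa [hNdef] using h0

/-- Periodised patterns. -/
noncomputable def pp (M : ℕ) (s : Finset V) : V → ℝ := fun x => pat s (red M x)

lemma pp_per (M : ℕ) (s : Finset V) : IsPeriodic M (pp M s) := per_red (pat_spin s)

lemma exists_pp {M : ℕ} {σ : V → ℝ} (h : IsPeriodic M σ) : ∃ s : Finset V, σ = pp M s := by
  obtain ⟨s, -, hs⟩ := exists_pat h.spin (box M)
  refine ⟨s, ?_⟩
  funext x
  rw [← h.red x, hs _ (red_mem M x)]
  rfl

/-- Almost surely the torus ground states are unique, up to a flip. -/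
lemma torus_unique {μ : Measure ℝ} [IsProbabilityMeasure μ] (hμ : ∀ x : ℝ, μ {x} = 0) :
    ∀ᵐ J ∂(PJ μ), ∀ M : ℕ, ∀ σ τ : V → ℝ, IsTorusGround M J σ → IsTorusGround M J τ →
      ∀ e, bond σ e = bond τ e := by
  classical
  have h1 : ∀ᵐ J ∂(PJ μ), ∀ (M : ℕ) (s t : Finset V), (∃ e ∈ tE M, bond (pp M s) e ≠ bond (pp M t) e) →
      ∑ e ∈ tE M, J e * (bond (pp M s) e - bond (pp M t) e) ≠ 0 := by
    rw [ae_all_iff]; intro M
    rw [ae_all_iff]; intro s
    rw [ae_all_iff]; intro t
    by_cases h : ∃ e ∈ tE M, bond (pp M s) e ≠ bond (pp M t) e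
    · obtain ⟨e0, he0, hne⟩ := h
      filter_upwards [generic2 hμ (c := fun e => bond (pp M s) e - bond (pp M t) e) he0
        (sub_ne_zero.2 hne)] with J hJ _
      exact hJ
    · exact ae_of_all _ (fun _ h' => absurd h' h)
  filter_upwards [h1] with J hJ M σ τ hσ hτ
  obtain ⟨s, rfl⟩ := exists_pp hσ.1
  obtain ⟨t, rfl⟩ := exists_pp hτ.1
  have h2 : ∑ e ∈ tE M, J e * bond (pp M t) e ≤ ∑ e ∈ tE M, J e * bond (pp M s) e :=
    hσ.2 _ hτ.1
  have h3 : ∑ e ∈ tE M, J e * bond (pp M s) e ≤ ∑ e ∈ tE M, J e * bond (pp M t) e :=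
    hτ.2 _ hσ.1
  have h4 : ∑ e ∈ tE M, J e * (bond (pp M s) e - bond (pp M t) e) = 0 := by
    have : ∑ e ∈ tE M, J e * (bond (pp M s) e - bond (pp M t) e)
        = ∑ e ∈ tE M, J e * bond (pp M s) e - ∑ e ∈ tE M, J e * bond (pp M t) e := by
      rw [← Finset.sum_sub_distrib]
      apply Finset.sum_congr rfl
      intro e _
      ring
    rw [this]; linarith
  have h5 : ∀ e ∈ tE M, bond (pp M s) e = bond (pp M t) e := by
    by_contra hcon
    push Not at hcon
    exact hJ M s t hcon h4
  rintro ⟨x, i⟩
  rw [← hσ.1.bond, ← hτ.1.bond]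
  exact h5 _ (mem_tE.2 (red_mem M x))

lemma measurableSet_TG (M : ℕ) (σ : V → ℝ) : MeasurableSet {J : E → ℝ | IsTorusGround M J σ} := by
  classical
  by_cases h : IsPeriodic M σ
  · have : {J : E → ℝ | IsTorusGround M J σ} = ⋂ s : Finset V, {J : E → ℝ |
        ∑ e ∈ tE M, J e * bond (pp M s) e ≤ ∑ e ∈ tE M, J e * bond σ e} := by
      ext J
      rw [mem_iInter]
      constructor
      · intro h1 s
        exact h1.2 _ (pp_per M s)
      · intro h1
        refine ⟨h, fun ρ hρ => ?_⟩
        obtain ⟨s, rfl⟩ := exists_pp hρ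
        exact h1 s
    rw [this]
    apply MeasurableSet.iInter
    intro s
    apply measurableSet_le
    · apply Finset.measurable_sum
      intro e _
      exact (measurable_pi_apply e).mul_const _
    · apply Finset.measurable_sum
      intro e _
      exact (measurable_pi_apply e).mul_const _
  · have : {J : E → ℝ | IsTorusGround M J σ} = ∅ := by
      ext J
      simp only [mem_ofPred_eq, mem_empty_iff_false, iff_false]
      intro h1
      exact h h1.1
    rw [this]
    exact MeasurableSet.empty

/-- The event that a torus ground state has a bond different from `F`. -/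
def DM (M : ℕ) (e : E) (F : (E → ℝ) → ℝ) : Set (E → ℝ) :=
  {J | ∃ σ, IsTorusGround M J σ ∧ bond σ e ≠ F J}

lemma measurableSet_DM (M : ℕ) (e : E) {F : (E → ℝ) → ℝ} (hF : Measurable F) :
    MeasurableSet (DM M e F) := by
  classical
  have : DM M e F = ⋃ s : Finset V, {J | IsTorusGround M J (pp M s)} ∩ {J | bond (pp M s) e ≠ F J} := by
    ext J
    rw [mem_iUnion]
    constructor
    · rintro ⟨σ, h1, h2⟩
      obtain ⟨s, rfl⟩ := exists_pp h1.1
      exact ⟨s, h1, h2⟩
    · rintro ⟨s, h1, h2⟩
      exact ⟨_, h1, h2⟩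
  rw [this]
  apply MeasurableSet.iUnion
  intro s
  apply (measurableSet_TG M _).inter
  exact (measurableSet_eq_fun measurable_const hF).compl

/-- Cyclic shift invariance. -/
lemma DM_cyc {μ : Measure ℝ} [IsProbabilityMeasure μ] {R K M : ℕ} (hM : K + R ≤ M)
    {F : (E → ℝ) → ℝ} (hF : Measurable F) {S : Finset E} (hS : Loc S F)
    (hSR : ∀ e ∈ S, e.1 ∈ box R) {z : V} (hz : z ∈ box K) (i : Fin 2) :
    PJ μ (DM M (z, i) (fun J => F (shJ z J))) = PJ μ (DM M (0, i) F) := by
  have h1 : DM M (z, i) (fun J => F (shJ z J))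
      = (fun J : E → ℝ => fun e => J (cyc M z e)) ⁻¹' (DM M (0, i) F) := by
    have hFJ : ∀ J : E → ℝ, F (fun e => J (cyc M z e)) = F (shJ z J) := by
      intro J
      apply hS
      intro e he
      have h2 := hSR e he
      rw [mem_box] at h2 hz
      have h3 : e.1 ∈ box M := by
        rw [mem_box]
        intro j
        have := h2 j
        constructor <;> omega
      have h4 : e.1 + z ∈ box M := by
        rw [mem_box]
        intro j
        rw [Pi.add_apply]
        have := h2 j
        have := hz j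
        constructor <;> omega
      rw [cyc_mem h3, red_of_mem h4]
      rfl
    ext J
    constructor
    · rintro ⟨σ, h2, h3⟩
      refine ⟨shS z σ, h2.cyc z, ?_⟩
      rw [hFJ, bond_shS]
      have : shE z (0, i) = (z, i) := by unfold shE; simp
      rw [this]
      exact h3
    · rintro ⟨σ, h2, h3⟩
      refine ⟨shS (-z) σ, ?_, ?_⟩
      · have h4 := h2.cyc (-z)
        have h5 : (fun e => J (cyc M z (cyc M (-z) e))) = J := by
          funext e
          have := cyc_cyc (M := M) (v := -z) (e := e)
          rw [neg_neg] at this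
          rw [this]
        rw [h5] at h4
        exact h4
      · show bond (shS (-z) σ) (z, i) ≠ F (shJ z J)
        rw [← hFJ, bond_shS]
        have : shE (-z) (z, i) = (0, i) := by unfold shE; simp
        rw [this]
        exact h3
  rw [h1]
  exact (mp_cyc μ M z).measure_preimage (measurableSet_DM M _ hF).nullMeasurableSet

end Pool.H66.EAM
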