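import Pool.Agent.Helper66.EAP.CaseDefs
import Pool.Agent.Helper66.EAP.TLim
import Pool.Agent.Helper66.EAM.CaseDefs

set_option autoImplicit false

/-! Case A implies uniqueness of the metastate. -/

namespace Pool.H66.EAM

open MeasureTheory Filter Topology

theorem uniqueMetastate_of_caseA {μ : Measure ℝ} [IsProbabilityMeasure μ]
    (hμ : ∀ x : ℝ, μ {x} = 0) (h : CaseA μ) : UniqueMetastate μ := by
  obtain ⟨α, h1, h2, h3, -⟩ := h
  exact ⟨α, h1, h2, torus_limit hμ h1, h3⟩

end Pool.H66.EAM
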